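import Pool.Agent.N869.GK.StmX

/-! Project GK, part X-TORB: the points of 2-power order are bounded. -/

set_option autoImplicit false

open scoped Classical

namespace Pool.Agent.N617.GK

open WeierstrassCurve Filter Topology
open Pool.Agent.N869.GK.X

/-- the multiples by powers of two of a point near infinity are near infinity -/
theorem big_pow {p : ℕ} [Fact p.Prime] {e1 e2 e3 : ℤ} {C : ℝ}
    (hC : ∀ (x y : ℚ_[p]) (h : (Wk (e1 : ℚ_[p]) e2 e3).toAffine.Nonsingular x y), C < ‖x‖ →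
    ∃ (x' y' : ℚ_[p]) (h' : (Wk (e1 : ℚ_[p]) e2 e3).toAffine.Nonsingular x' y'),
      Affine.Point.some x y h + Affine.Point.some x y h = Affine.Point.some x' y' h' ∧
      ‖x'‖ * ‖(4 : ℚ_[p])‖ = ‖x‖) (P : (Wk (e1 : ℚ_[p]) e2 e3).toAffine.Point) (hP : Big C P)
    (k : ℕ) : Big C ((2 ^ k : ℕ) • P) := by
  induction k with
  | zero => rw [pow_zero, one_nsmul]; exact hP
  | succ k ih =>
    obtain ⟨x, y, h, h1, h2⟩ := ih
    obtain ⟨x', y', h', h3, h4⟩ := hC x y h h2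
    have e : (2 ^ (k + 1) : ℕ) • P = Affine.Point.some x' y' h' := by
      rw [pow_succ, mul_comm, mul_nsmul', two_nsmul, h1, h3]
    refine ⟨x', y', h', e, ?_⟩
    have h5 : ‖(4 : ℚ_[p])‖ ≤ 1 := by
      have := Padic.norm_int_le_one (p := p) 4
      simpa using this
    have h6 : ‖x'‖ * ‖(4 : ℚ_[p])‖ ≤ ‖x'‖ * 1 :=
      mul_le_mul_of_nonneg_left h5 (norm_nonneg _)
    linarith

theorem big_ne {p : ℕ} [Fact p.Prime] {W : WeierstrassCurve ℚ_[p]} {C : ℝ} {P : W.toAffine.Point}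
    (h : Big C P) : P ≠ 0 := by
  obtain ⟨x, y, h, rfl, _⟩ := h
  exact Affine.Point.some_ne_zero h

theorem t_TORB : S_TORB := by
  intro _ hDBL hDTW hDIF p _ e1 e2 e3 h12 h13 h23
  obtain ⟨C, hC1, hC⟩ := hDBL p e1 e2 e3 h12 h13 h23
  obtain ⟨ε, hε, hDTW⟩ := hDTW p e1 e2 e3 h12 h13 h23 C
  obtain ⟨η, hη, hDIF⟩ := hDIF p e1 e2 e3 h12 h13 h23 C ε hε
  have hnb : ∀ (P : (Wk (e1 : ℚ_[p]) e2 e3).toAffine.Point) (k : ℕ), (2 ^ k : ℕ) • P = 0 →
      ¬ Big C P := by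
    intro P k hP hB
    exact big_ne (big_pow hC P hB k) hP
  by_contra hcon
  push Not at hcon
  have hcon' : ∀ N : ℕ, ∃ P : (Wk (e1 : ℚ_[p]) e2 e3).toAffine.Point,
      (2 ^ (N + 2) : ℕ) • P = 0 ∧ (2 ^ (N + 1) : ℕ) • P ≠ 0 := by
    intro N
    exact hcon (N + 1) (by omega)
  choose P hP1 hP2 using hcon'
  have hP0 : ∀ N, P N ≠ 0 := by
    intro N h
    exact hP2 N (by rw [h, nsmul_zero])
  have hxy : ∀ N, ∃ (x y : ℚ_[p]) (h : (Wk (e1 : ℚ_[p]) e2 e3).toAffine.Nonsingular x y),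
      P N = Affine.Point.some x y h := by
    intro N
    rcases hPN : P N with _ | ⟨x, y, h⟩
    · exact absurd hPN (hP0 N)
    · exact ⟨x, y, h, rfl⟩
  choose x y h hPxy using hxy
  have hx : ∀ N, ‖x N‖ ≤ C := by
    intro N
    by_contra hlt
    push Not at hlt
    exact hnb (P N) _ (hP1 N) ⟨x N, y N, h N, hPxy N, hlt⟩
  have hPP : ∀ N, P N + P N ≠ 0 := by
    intro N h0
    apply hP2 N
    rw [pow_succ, mul_nsmul', two_nsmul, h0, nsmul_zero]
  have hy0 : ∀ N, y N ≠ 0 := by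
    intro N h0
    apply hPP N
    rw [hPxy N]
    refine Affine.Point.add_self_of_Y_eq ?_
    rw [h0, Affine.negY]
    simp [Wk]
  have hy : ∀ N, ε ≤ ‖y N‖ := by
    intro N
    by_contra hlt
    push Not at hlt
    have h1 := hDTW (x N) (y N) (h N) (hy0 N) hlt
    rw [← hPxy N] at h1
    refine hnb (P N + P N) (N + 1) ?_ h1
    rw [← two_nsmul, ← mul_nsmul', ← pow_succ]
    exact hP1 N
  -- the second coordinates are bounded
  have hyC : ∃ C' : ℝ, ∀ N, ‖y N‖ ≤ C' := by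
    refine ⟨Real.sqrt ((C + ‖(e1 : ℚ_[p])‖) * (C + ‖(e2 : ℚ_[p])‖) * (C + ‖(e3 : ℚ_[p])‖)), ?_⟩
    intro N
    refine Real.le_sqrt_of_sq_le ?_
    have heq : y N ^ 2 = (x N - e1) * (x N - e2) * (x N - e3) := by
      have h1 := (h N).1
      rw [Affine.equation_iff] at h1
      simp only [Wk] at h1
      linear_combination h1
    rw [← norm_pow, heq, norm_mul, norm_mul]
    have hb : ∀ e : ℚ_[p], ‖x N - e‖ ≤ C + ‖e‖ := fun e =>
      (norm_sub_le _ _).trans (add_le_add (hx N) le_rfl)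
    have hC0 : 0 ≤ C := by linarith
    gcongr
    · exact hb _
    · exact hb _
    · exact hb _
  obtain ⟨C', hC'⟩ := hyC
  -- pigeonhole
  have hcomp : IsCompact (Metric.closedBall (0 : ℚ_[p] × ℚ_[p]) (max C C')) :=
    isCompact_closedBall _ _
  have hmem : ∀ N, (x N, y N) ∈ Metric.closedBall (0 : ℚ_[p] × ℚ_[p]) (max C C') := by
    intro N
    rw [mem_closedBall_zero_iff, Prod.norm_def]
    exact max_le_max (hx N) (hC' N)
  obtain ⟨a, _, φ, hφ, hlim⟩ := hcomp.tendsto_subseq hmem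
  have hcau := hlim.cauchySeq
  rw [Metric.cauchySeq_iff'] at hcau
  obtain ⟨N0, hN0⟩ := hcau η hη
  have hd := hN0 (N0 + 1) (by omega)
  have hlt : φ N0 < φ (N0 + 1) := hφ (Nat.lt_succ_self _)
  simp only [Function.comp_apply] at hd
  rw [Prod.dist_eq, max_lt_iff, dist_eq_norm, dist_eq_norm] at hd
  set M := φ (N0 + 1) with hM
  set N := φ N0 with hN
  have hPne : P M ≠ P N := by
    intro he
    apply hP2 M
    have h1 : (M + 1) = (M + 1 - (N + 2)) + (N + 2) := by omega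
    rw [h1, pow_add, mul_nsmul', he, hP1 N, nsmul_zero]
  have hne : (x M, y M) ≠ (x N, y N) := by
    intro he
    apply hPne
    have h1 : x M = x N := (Prod.ext_iff.1 he).1
    have h2 : y M = y N := (Prod.ext_iff.1 he).2
    rw [hPxy M, hPxy N]
    congr 1
  have hbig := hDIF (x M) (y M) (x N) (y N) (h M) (h N) (hx M) (hx N) (hy M) hd.1 hd.2 hne
  rw [← hPxy M, ← hPxy N] at hbig
  refine hnb (P M - P N) (M + 2) ?_ hbig
  rw [nsmul_sub, hP1 M, zero_sub, neg_eq_zero]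
  have h1 : M + 2 = (M - N) + (N + 2) := by omega
  rw [h1, pow_add, mul_nsmul', hP1 N, nsmul_zero]

end Pool.Agent.N617.GK
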